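import Pool.Agent.N422.NWS.Stm

/-! Project NWS, package CUBE: functions on the `p`-biased cube. -/

set_option autoImplicit false

open Finset

namespace Pool.Agent.U394.NWS

open Pool.Agent.N422.NWS

theorem sum_prod_ite {m : ℕ} (a b : Fin m → ℝ) :
    ∑ X : Finset (Fin m), ∏ c, (if c ∈ X then a c else b c) = ∏ c, (a c + b c) := by
  rw [Finset.prod_add, Finset.powerset_univ]
  refine Finset.sum_congr rfl fun X _ => ?_
  rw [← Finset.prod_sdiff (Finset.subset_univ X), mul_comm]
  congr 1
  · exact Finset.prod_congr rfl fun c hc => by rw [if_pos hc]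
  · exact Finset.prod_congr rfl fun c hc => by rw [if_neg (Finset.mem_sdiff.1 hc).2]

theorem ee_eq {m : ℕ} (p : Fin m → ℝ) (A X : Finset (Fin m)) :
    ee p A X = ∏ c, (if c ∈ A then ((if c ∈ X then 1 else 0) - p c) else 1) := by
  unfold ee
  rw [Finset.prod_ite_mem, Finset.univ_inter]

theorem expand {m : ℕ} (α β : Fin m → ℝ) (p : Fin m → ℝ) (X : Finset (Fin m)) :
    ∏ c, (α c + β c * ((if c ∈ X then 1 else 0) - p c)) =
      ∑ A : Finset (Fin m), (∏ c ∈ A, β c) * (∏ c ∈ univ \ A, α c) * ee p A X := by
  have h : ∀ c, α c + β c * ((if c ∈ X then (1 : ℝ) else 0) - p c) =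
      β c * ((if c ∈ X then (1 : ℝ) else 0) - p c) + α c := fun c => add_comm _ _
  simp only [h]
  rw [Finset.prod_add, Finset.powerset_univ]
  refine Finset.sum_congr rfl fun A _ => ?_
  rw [Finset.prod_mul_distrib]
  unfold ee
  ring

theorem t_CUBE : S_CUBE := by
  intro m p hp
  have h1 : ∀ c, 1 - p c ≠ 0 := fun c => by have := hp c; linarith
  refine ⟨fun g M hg => ?_, fun X => ?_, fun A A' => ?_, ?_⟩
  · -- expansion
    set al : Finset (Fin m) → Fin m → ℝ := fun Y c => if c ∈ Y then p c else 1 - p c with hal
    set be : Finset (Fin m) → Fin m → ℝ := fun Y c => if c ∈ Y then 1 else -1 with hbe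
    refine ⟨fun A => ∑ Y, g Y * ((∏ c ∈ A, be Y c) * ∏ c ∈ univ \ A, al Y c), fun A => ?_, ?_,
      fun X => ?_⟩
    · have hal1 : ∀ Y c, |al Y c| ≤ 1 := by
        intro Y c
        have := hp c
        simp only [hal]
        split_ifs <;> rw [abs_le] <;> constructor <;> linarith
      have hbe1 : ∀ Y c, |be Y c| ≤ 1 := by
        intro Y c
        simp only [hbe]
        split_ifs <;> norm_num
      have hM : 0 ≤ M := (abs_nonneg _).trans (hg ∅)
      calc |∑ Y, g Y * ((∏ c ∈ A, be Y c) * ∏ c ∈ univ \ A, al Y c)|
          ≤ ∑ Y : Finset (Fin m), |g Y * ((∏ c ∈ A, be Y c) * ∏ c ∈ univ \ A, al Y c)| :=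
            Finset.abs_sum_le_sum_abs _ _
        _ ≤ ∑ _Y : Finset (Fin m), M := by
            refine Finset.sum_le_sum fun Y _ => ?_
            rw [abs_mul, abs_mul, Finset.abs_prod, Finset.abs_prod]
            have h2 : ∏ c ∈ A, |be Y c| ≤ 1 :=
              Finset.prod_le_one (fun c _ => abs_nonneg _) fun c _ => hbe1 Y c
            have h3 : ∏ c ∈ univ \ A, |al Y c| ≤ 1 :=
              Finset.prod_le_one (fun c _ => abs_nonneg _) fun c _ => hal1 Y c
            have h4 : 0 ≤ ∏ c ∈ A, |be Y c| := Finset.prod_nonneg fun c _ => abs_nonneg _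
            have h5 : 0 ≤ ∏ c ∈ univ \ A, |al Y c| := Finset.prod_nonneg fun c _ => abs_nonneg _
            have h6 : (∏ c ∈ A, |be Y c|) * ∏ c ∈ univ \ A, |al Y c| ≤ 1 := mul_le_one₀ h2 h5 h3
            calc |g Y| * ((∏ c ∈ A, |be Y c|) * ∏ c ∈ univ \ A, |al Y c|)
                ≤ |g Y| * 1 := mul_le_mul_of_nonneg_left h6 (abs_nonneg _)
              _ ≤ M := by rw [mul_one]; exact hg Y
        _ = 2 ^ m * M := by
            rw [Finset.sum_const, Finset.card_univ, Fintype.card_finset, Fintype.card_fin,
              nsmul_eq_mul]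
            push_cast
            ring
    · simp only [Finset.prod_empty, Finset.sdiff_empty, one_mul]
      refine Finset.sum_congr rfl fun Y _ => ?_
      rw [mul_comm]
      rfl
    · have h2 : ∀ Y, (if X = Y then (1 : ℝ) else 0) =
          ∏ c, (al Y c + be Y c * ((if c ∈ X then 1 else 0) - p c)) := by
        intro Y
        by_cases hXY : X = Y
        · subst hXY
          rw [if_pos rfl]
          symm
          refine Finset.prod_eq_one fun c _ => ?_
          simp only [hal, hbe]
          split_ifs <;> ring
        · rw [if_neg hXY]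
          have : ∃ c, ¬ (c ∈ X ↔ c ∈ Y) := by
            by_contra hcon
            push Not at hcon
            exact hXY (Finset.ext hcon)
          obtain ⟨c, hc⟩ := this
          symm
          refine Finset.prod_eq_zero (Finset.mem_univ c) ?_
          simp only [hal, hbe]
          by_cases hx : c ∈ X
          · have hy : c ∉ Y := fun h => hc ⟨fun _ => h, fun _ => hx⟩
            rw [if_neg hy, if_neg hy, if_pos hx]
            ring
          · have hy : c ∈ Y := by
              by_contra h
              exact hc ⟨fun h' => absurd h' hx, fun h' => absurd h' h⟩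
            rw [if_pos hy, if_pos hy, if_neg hx]
            ring
      have h3 : g X = ∑ Y, g Y * (if X = Y then (1 : ℝ) else 0) := by
        rw [Finset.sum_eq_single X]
        · rw [if_pos rfl, mul_one]
        · intro Y _ hY
          rw [if_neg (Ne.symm hY), mul_zero]
        · intro h
          exact absurd (Finset.mem_univ _) h
      rw [h3]
      simp only [h2, expand, Finset.mul_sum, Finset.sum_mul]
      rw [Finset.sum_comm]
      refine Finset.sum_congr rfl fun A _ => Finset.sum_congr rfl fun Y _ => ?_
      ring
  · -- the empty set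
    have h2 : (if X = ∅ then (∏ c, (1 - p c))⁻¹ else 0) =
        ∏ c, (1 + (-(1 - p c)⁻¹) * ((if c ∈ X then 1 else 0) - p c)) := by
      by_cases hX : X = ∅
      · subst hX
        rw [if_pos rfl, ← Finset.prod_inv_distrib]
        refine Finset.prod_congr rfl fun c _ => ?_
        rw [if_neg (Finset.notMem_empty c)]
        have := h1 c
        field_simp
        ring
      · rw [if_neg hX]
        obtain ⟨c, hc⟩ := Finset.nonempty_iff_ne_empty.2 hX
        symm
        refine Finset.prod_eq_zero (Finset.mem_univ c) ?_
        rw [if_pos hc]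
        have := h1 c
        field_simp
        ring
    rw [h2, expand]
    refine Finset.sum_congr rfl fun A _ => ?_
    rw [Finset.prod_const_one, mul_one]
    congr 1
    have : ∀ c, -(1 - p c)⁻¹ = (-1) * (1 - p c)⁻¹ := fun c => by ring
    simp only [this]
    rw [Finset.prod_mul_distrib, Finset.prod_const, Finset.prod_inv_distrib]
  · -- orthogonality
    have h2 : ∀ X, wc p X * (ee p A X * ee p A' X) = ∏ c, (if c ∈ X then
        p c * ((if c ∈ A then 1 - p c else 1) * (if c ∈ A' then 1 - p c else 1)) else
        (1 - p c) * ((if c ∈ A then - p c else 1) * (if c ∈ A' then - p c else 1))) := by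
      intro X
      rw [ee_eq, ee_eq]
      unfold wc
      rw [← Finset.prod_mul_distrib, ← Finset.prod_mul_distrib]
      refine Finset.prod_congr rfl fun c _ => ?_
      by_cases hX : c ∈ X <;> by_cases hA : c ∈ A <;> by_cases hA' : c ∈ A' <;>
        simp [hX, hA, hA']
    simp only [h2]
    rw [sum_prod_ite]
    by_cases hAA : A = A'
    · subst hAA
      rw [if_pos rfl, ← Finset.prod_subset (Finset.subset_univ A)]
      · refine Finset.prod_congr rfl fun c hc => ?_
        rw [if_pos hc, if_pos hc]
        ring
      · intro c _ hc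
        rw [if_neg hc, if_neg hc]
        ring
    · rw [if_neg hAA]
      have : ∃ c, ¬ (c ∈ A ↔ c ∈ A') := by
        by_contra hcon
        push Not at hcon
        exact hAA (Finset.ext hcon)
      obtain ⟨c, hc⟩ := this
      refine Finset.prod_eq_zero (Finset.mem_univ c) ?_
      by_cases hx : c ∈ A
      · have hy : c ∉ A' := fun h => hc ⟨fun _ => h, fun _ => hx⟩
        rw [if_pos hx, if_pos hx, if_neg hy, if_neg hy]
        ring
      · have hy : c ∈ A' := by
          by_contra h
          exact hc ⟨fun h' => absurd h' hx, fun h' => absurd h' h⟩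
        rw [if_neg hx, if_neg hx, if_pos hy, if_pos hy]
        ring
  · unfold wc
    rw [sum_prod_ite]
    exact Finset.prod_eq_one fun c _ => by ring

end Pool.Agent.U394.NWS
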